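import Pool.Agent.K1H85.SL.Stm

/-!
# Project SL, piece SQZ: squeeze between good points
-/

set_option autoImplicit false

namespace Pool.Agent.K1H38.SL

open Filter Topology

theorem near {F : ℕ → ℝ} {γ e : ℝ} {x : ℕ} (he : 0 < e) (c1 : 1 ≤ Real.log x) (hx : 2 ≤ x)
    (u : ℕ) (h1 : x ≤ 2 * u) (h2 : u ≤ 2 * x)
    (h3 : |F u - γ * Real.log u| ≤ e * Real.log u) :
    |F u - γ * Real.log x| ≤ 2 * e * Real.log x + |γ| := by
  have hx0 : (0 : ℝ) < x := by
    have : (2 : ℝ) ≤ x := by exact_mod_cast hx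
    linarith
  have hu0 : (0 : ℝ) < u := by
    have : 1 ≤ u := by omega
    have : (1 : ℝ) ≤ u := by exact_mod_cast this
    linarith
  have hl2 : Real.log 2 ≤ 1 := by
    have := Real.log_two_lt_d9
    linarith
  have a1 : Real.log u ≤ Real.log x + 1 := by
    have : Real.log u ≤ Real.log (2 * x) := Real.log_le_log hu0 (by exact_mod_cast h2)
    rw [Real.log_mul (by norm_num) hx0.ne'] at this
    linarith
  have a2 : Real.log x ≤ Real.log u + 1 := by
    have : Real.log x ≤ Real.log (2 * u) := Real.log_le_log hx0 (by exact_mod_cast h1)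
    rw [Real.log_mul (by norm_num) hu0.ne'] at this
    linarith
  have a3 : |Real.log u - Real.log x| ≤ 1 := by
    rw [abs_le]
    constructor <;> linarith
  have a4 : |γ * (Real.log u - Real.log x)| ≤ |γ| := by
    rw [abs_mul]
    exact mul_le_of_le_one_right (abs_nonneg _) a3
  have a5 : F u - γ * Real.log x = (F u - γ * Real.log u) + γ * (Real.log u - Real.log x) := by
    ring
  rw [a5]
  refine (abs_add_le _ _).trans ?_
  have a6 : e * Real.log u ≤ e * (Real.log x + 1) := mul_le_mul_of_nonneg_left a1 he.le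
  have a7 : e * 1 ≤ e * Real.log x := mul_le_mul_of_nonneg_left c1 he.le
  nlinarith

theorem sq_mono {y x : ℕ} (hy : 1 ≤ y) (h : y ≤ x) :
    Real.sqrt (y * Real.log y) ≤ Real.sqrt (x * Real.log x) := by
  have h1 : (1 : ℝ) ≤ y := by exact_mod_cast hy
  have h2 : (y : ℝ) ≤ x := by exact_mod_cast h
  apply Real.sqrt_le_sqrt
  exact mul_le_mul h2 (Real.log_le_log (by linarith) h2) (Real.log_nonneg h1) (by linarith)

set_option maxHeartbeats 2000000 in
theorem core {F : ℕ → ℝ} {s N Y x : ℕ} {C γ e : ℝ} (hs : 1 ≤ s) (hN : 1 ≤ N) (hC : 0 ≤ C)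
    (he : 0 < e) (he1 : e ≤ 1)
    (h3 : ∀ n i j : ℕ, N ≤ n →
      ((i : ℝ) + j) * F (n + s * i) ≤ j * F n + i * F (n + s * (i + j)) +
        C * (i * j * (i + j)) / n)
    (hY : ∀ y x : ℕ, Y ≤ y → ∃ u : ℕ, y < u ∧
      (u : ℝ) ≤ y + e * Real.sqrt (y * Real.log y) ∧ u ≡ x [MOD s] ∧
      |F u - γ * Real.log u| ≤ e * Real.log u)
    (c1 : 1 ≤ Real.log x) (c2 : 1 ≤ e * Real.sqrt (x * Real.log x))
    (c3 : 10 * (e * Real.sqrt (x * Real.log x)) ≤ x) (c4 : 2 * (Y + N + 2) ≤ x) :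
    |F x - γ * Real.log x| ≤ 3 * (2 * e * Real.log x + |γ|) + 5 * C * e ^ 2 * Real.log x := by
  set L := Real.log x with hL
  set h := e * Real.sqrt (x * L) with hh
  set A := 2 * e * L + |γ| with hA
  have hx4 : 4 ≤ x := by omega
  have hx0 : (0 : ℝ) < x := by
    have : (4 : ℝ) ≤ x := by exact_mod_cast hx4
    linarith
  have hh2 : h ^ 2 = e ^ 2 * (x * L) := by
    rw [hh, mul_pow, Real.sq_sqrt (mul_nonneg hx0.le (by linarith))]
  have hA0 : 0 ≤ A := by
    have : 0 ≤ |γ| := abs_nonneg _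
    have : 0 ≤ e * L := mul_nonneg he.le (by linarith)
    rw [hA]
    linarith
  obtain ⟨H, hH1, hH2⟩ : ∃ H : ℕ, h ≤ H ∧ (H : ℝ) ≤ 2 * h :=
    ⟨⌈h⌉₊, Nat.le_ceil h, by linarith [Nat.ceil_lt_add_one (show 0 ≤ h by linarith)]⟩
  have hHx : 5 * H ≤ x := by
    have : (5 : ℝ) * H ≤ x := by linarith
    exact_mod_cast this
  -- the point above
  obtain ⟨v, hv1, hv2, hv3, hv4⟩ := hY x x (by omega)
  rw [← hL, ← hh] at hv2
  obtain ⟨j, hj⟩ : ∃ j, v = x + s * j := by
    obtain ⟨j, hj⟩ := (Nat.modEq_iff_dvd' hv1.le).1 hv3.symm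
    exact ⟨j, by omega⟩
  have hj1 : 1 ≤ j := by
    rcases Nat.eq_zero_or_pos j with h0 | h0
    · rw [h0] at hj
      omega
    · exact h0
  have hjh : (j : ℝ) ≤ h := by
    have e1 : (v : ℝ) = x + s * j := by exact_mod_cast hj
    have e2 : (1 : ℝ) * j ≤ s * j :=
      mul_le_mul_of_nonneg_right (by exact_mod_cast hs) (by positivity)
    linarith
  have hv5 : v ≤ 2 * x := by
    have : (v : ℝ) ≤ 2 * x := by linarith
    exact_mod_cast this
  have hvA := near he c1 (by omega) v (by omega) hv5 hv4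
  rw [← hL, ← hA] at hvA
  -- the point below
  obtain ⟨u, hu1, hu2, hu3, hu4⟩ := hY (x - H) x (by omega)
  have hu5 : u ≤ x := by
    have e1 := sq_mono (show 1 ≤ x - H by omega) (Nat.sub_le x H)
    have e2 : e * Real.sqrt (((x - H : ℕ) : ℝ) * Real.log ((x - H : ℕ) : ℝ)) ≤ h :=
      mul_le_mul_of_nonneg_left e1 he.le
    have e3 : ((x - H : ℕ) : ℝ) = x - H := by
      rw [Nat.cast_sub (by omega)]
    have : (u : ℝ) ≤ x := by linarith
    exact_mod_cast this
  obtain ⟨i, hi⟩ : ∃ i, x = u + s * i := by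
    obtain ⟨i, hi⟩ := (Nat.modEq_iff_dvd' hu5).1 hu3
    exact ⟨i, by omega⟩
  have hih : (i : ℝ) ≤ 2 * h := by
    have e0 : s * i ≤ H := by omega
    have e1 : 1 * i ≤ s * i := Nat.mul_le_mul_right i hs
    have e2 : (i : ℝ) ≤ H := by
      have : i ≤ H := by omega
      exact_mod_cast this
    linarith
  have huA := near he c1 (by omega) u (by omega) (by omega) hu4
  rw [← hL, ← hA] at huA
  have hu0 : (0 : ℝ) < u := by
    have : 1 ≤ u := by omega
    have : (1 : ℝ) ≤ u := by exact_mod_cast this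
    linarith
  have hux : (x : ℝ) ≤ 2 * u := by
    have : x ≤ 2 * u := by omega
    exact_mod_cast this
  have hj0 : (0 : ℝ) < j := by
    have : (1 : ℝ) ≤ j := by exact_mod_cast hj1
    linarith
  have hi0 : (0 : ℝ) ≤ i := by positivity
  have hh0 : 0 < h := by linarith
  -- upper bound
  have hup : F x - γ * L ≤ A + 4 * C * e ^ 2 * L := by
    have e1 := h3 u i j (by omega)
    have e0 : u + s * (i + j) = v := by
      rw [mul_add]
      omega
    rw [e0, ← hi] at e1
    have e2 : (j : ℝ) * F u ≤ j * (A + γ * L) :=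
      mul_le_mul_of_nonneg_left (by linarith [(abs_le.1 huA).2]) hj0.le
    have e3 : (i : ℝ) * F v ≤ i * (A + γ * L) :=
      mul_le_mul_of_nonneg_left (by linarith [(abs_le.1 hvA).2]) hi0
    have e4 : (i : ℝ) * j ≤ 2 * h * h := mul_le_mul hih hjh hj0.le (by linarith)
    have e5 : (i : ℝ) * j / u ≤ 4 * e ^ 2 * L := by
      rw [div_le_iff₀ hu0]
      have e6 : 0 ≤ e ^ 2 * L := mul_nonneg (sq_nonneg _) (by linarith)
      calc (i : ℝ) * j ≤ 2 * h * h := e4
        _ = 2 * (e ^ 2 * L) * x := by rw [mul_assoc, ← sq, hh2]; ring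
        _ ≤ 2 * (e ^ 2 * L) * (2 * u) := mul_le_mul_of_nonneg_left hux (by linarith)
        _ = 4 * e ^ 2 * L * u := by ring
    have e7 : C * ((i : ℝ) * j * (i + j)) / u = (i + j) * (C * ((i : ℝ) * j / u)) := by ring
    have e8 : C * ((i : ℝ) * j / u) ≤ C * (4 * e ^ 2 * L) := mul_le_mul_of_nonneg_left e5 hC
    have e9 : ((i : ℝ) + j) * F x ≤ (i + j) * (A + γ * L + C * (4 * e ^ 2 * L)) := by
      have e10 : ((i : ℝ) + j) * (C * ((i : ℝ) * j / u)) ≤ (i + j) * (C * (4 * e ^ 2 * L)) :=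
        mul_le_mul_of_nonneg_left e8 (by linarith)
      rw [e7] at e1
      calc ((i : ℝ) + j) * F x ≤ _ := e1
        _ ≤ j * (A + γ * L) + i * (A + γ * L) + (i + j) * (C * (4 * e ^ 2 * L)) := by linarith
        _ = _ := by ring
    have e11 := le_of_mul_le_mul_left e9 (by linarith)
    linarith
  -- the second point above
  obtain ⟨w, hw1, hw2, hw3, hw4⟩ := hY (v + H) x (by omega)
  have hvH : v + H ≤ 2 * x := by
    have : ((v + H : ℕ) : ℝ) ≤ 2 * x := by
      push_cast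
      linarith
    exact_mod_cast this
  have hw5 : (w : ℝ) ≤ v + H + 2 * h := by
    have e1 := sq_mono (show 1 ≤ v + H by omega) hvH
    have e2 : Real.sqrt (((2 * x : ℕ) : ℝ) * Real.log ((2 * x : ℕ) : ℝ)) ≤
        2 * Real.sqrt (x * L) := by
      rw [show 2 * Real.sqrt (x * L) = Real.sqrt (4 * (x * L)) by
        rw [Real.sqrt_mul (by norm_num) (x * L), show (4 : ℝ) = 2 ^ 2 by norm_num,
          Real.sqrt_sq (by norm_num)]]
      apply Real.sqrt_le_sqrt
      push_cast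
      rw [Real.log_mul (by norm_num) hx0.ne', ← hL]
      have hl2 : Real.log 2 ≤ 1 := by
        have := Real.log_two_lt_d9
        linarith
      nlinarith
    have e3 : e * Real.sqrt (((v + H : ℕ) : ℝ) * Real.log ((v + H : ℕ) : ℝ)) ≤ 2 * h := by
      have := mul_le_mul_of_nonneg_left (e1.trans e2) he.le
      rw [hh]
      linarith
    have e4 : ((v + H : ℕ) : ℝ) = v + H := by push_cast; rfl
    linarith
  obtain ⟨k, hk⟩ : ∃ k, w = v + s * k := by
    have e1 : v ≡ w [MOD s] := hv3.trans hw3.symm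
    obtain ⟨k, hk⟩ := (Nat.modEq_iff_dvd' (by omega)).1 e1
    exact ⟨k, by omega⟩
  have hwk : (w : ℝ) = v + s * k := by exact_mod_cast hk
  have hvj : (v : ℝ) = x + s * j := by exact_mod_cast hj
  have hs1 : (1 : ℝ) ≤ s := by exact_mod_cast hs
  have hjk : (j : ℝ) ≤ k := by
    by_contra hcon
    push Not at hcon
    have e1 : (s : ℝ) * k ≤ s * j := mul_le_mul_of_nonneg_left hcon.le (by linarith)
    have e2 : ((v + H : ℕ) : ℝ) < w := by exact_mod_cast hw1
    push_cast at e2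
    linarith
  have hkh : (k : ℝ) ≤ 4 * h := by
    have e2 : (1 : ℝ) * k ≤ s * k := mul_le_mul_of_nonneg_right hs1 (by positivity)
    linarith
  have hw6 : w ≤ 2 * x := by
    have : (w : ℝ) ≤ 2 * x := by linarith
    exact_mod_cast this
  have hwA := near he c1 (by omega) w (by omega) hw6 hw4
  rw [← hL, ← hA] at hwA
  have hk0 : (0 : ℝ) < k := lt_of_lt_of_le hj0 hjk
  have hlo : -(3 * A + 5 * C * e ^ 2 * L) ≤ F x - γ * L := by
    have e1 := h3 x j k (by omega)
    have e0 : x + s * (j + k) = w := by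
      rw [mul_add]
      omega
    rw [e0, ← hj] at e1
    have e2 : ((j : ℝ) + k) * (γ * L - A) ≤ (j + k) * F v :=
      mul_le_mul_of_nonneg_left (by linarith [(abs_le.1 hvA).1]) (by linarith)
    have e3 : (j : ℝ) * F w ≤ j * (A + γ * L) :=
      mul_le_mul_of_nonneg_left (by linarith [(abs_le.1 hwA).2]) hj0.le
    have e4 : (j : ℝ) * (j + k) ≤ h * (5 * h) :=
      mul_le_mul hjh (by linarith) (by linarith) (by linarith)
    have e5 : (j : ℝ) * (j + k) / x ≤ 5 * e ^ 2 * L := by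
      rw [div_le_iff₀ hx0]
      calc (j : ℝ) * (j + k) ≤ h * (5 * h) := e4
        _ = 5 * h ^ 2 := by ring
        _ = 5 * e ^ 2 * L * x := by rw [hh2]; ring
    have e7 : C * ((j : ℝ) * k * (j + k)) / x = k * (C * ((j : ℝ) * (j + k) / x)) := by ring
    have e8 : C * ((j : ℝ) * (j + k) / x) ≤ C * (5 * e ^ 2 * L) := mul_le_mul_of_nonneg_left e5 hC
    have e10 : (k : ℝ) * (C * ((j : ℝ) * (j + k) / x)) ≤ k * (C * (5 * e ^ 2 * L)) :=
      mul_le_mul_of_nonneg_left e8 hk0.le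
    have e11 : (j : ℝ) * A ≤ k * A := mul_le_mul_of_nonneg_right hjk hA0
    have e9 : (k : ℝ) * (γ * L - (3 * A + C * (5 * e ^ 2 * L))) ≤ k * F x := by
      rw [e7] at e1
      linarith
    have e12 := le_of_mul_le_mul_left e9 hk0
    linarith
  have hCe : 0 ≤ C * e ^ 2 * L := mul_nonneg (mul_nonneg hC (sq_nonneg _)) (by linarith)
  rw [abs_le]
  constructor
  · linarith
  · linarith

theorem t_SQZ : Pool.Agent.K1H85.SL.S_SQZ := by
  intro F s N C γ hs hN hC h3 hgood
  rw [Metric.tendsto_nhds]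
  intro δ hδ
  have hK : 0 < 4 * (6 + 5 * C) := by positivity
  obtain ⟨e, he, he1, he2⟩ : ∃ e : ℝ, 0 < e ∧ e ≤ 1 ∧ (6 + 5 * C) * e ≤ δ / 4 := by
    refine ⟨min 1 (δ / (4 * (6 + 5 * C))), by positivity, min_le_left _ _, ?_⟩
    have : (6 + 5 * C) * min 1 (δ / (4 * (6 + 5 * C))) ≤
        (6 + 5 * C) * (δ / (4 * (6 + 5 * C))) :=
      mul_le_mul_of_nonneg_left (min_le_right _ _) (by positivity)
    refine this.trans (le_of_eq ?_)
    field_simp
  obtain ⟨Y, hY⟩ := hgood e he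
  have tl : Tendsto (fun n : ℕ => Real.log n) atTop atTop :=
    Real.tendsto_log_atTop.comp tendsto_natCast_atTop_atTop
  have a1 : ∀ᶠ x : ℕ in atTop, 1 ≤ Real.log x := tl.eventually_ge_atTop 1
  have a2 : ∀ᶠ x : ℕ in atTop, 1 / e ^ 2 ≤ (x : ℝ) :=
    tendsto_natCast_atTop_atTop.eventually_ge_atTop _
  have a3 : ∀ᶠ x : ℕ in atTop, Real.log x ≤ 1 / 100 * x := by
    have h1 := (Real.isLittleO_log_id_atTop.bound (show (0 : ℝ) < 1 / 100 by norm_num))
    have h2 := tendsto_natCast_atTop_atTop (R := ℝ) |>.eventually h1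
    filter_upwards [h2, a1] with x hx hx1
    simp only [id, Real.norm_eq_abs] at hx
    rwa [abs_of_nonneg (by linarith), abs_of_nonneg (by positivity)] at hx
  have a4 : ∀ᶠ x : ℕ in atTop, 2 * (Y + N + 2) ≤ x := eventually_ge_atTop _
  have a5 : ∀ᶠ x : ℕ in atTop, 12 * |γ| / δ ≤ Real.log x := tl.eventually_ge_atTop _
  filter_upwards [a1, a2, a3, a4, a5] with x c1 b2 b3 c4 b5
  have hx0 : (0 : ℝ) < x := lt_of_lt_of_le (by positivity) b2
  have hL0 : 0 < Real.log x := by linarith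
  have c2 : 1 ≤ e * Real.sqrt (x * Real.log x) := by
    have h1 : 1 / e ^ 2 ≤ x * Real.log x := by nlinarith
    have h2 : 1 / e ≤ Real.sqrt (x * Real.log x) := by
      apply Real.le_sqrt_of_sq_le
      rw [div_pow, one_pow]
      exact h1
    calc (1 : ℝ) = e * (1 / e) := by field_simp
      _ ≤ _ := mul_le_mul_of_nonneg_left h2 he.le
  have c3 : 10 * (e * Real.sqrt (x * Real.log x)) ≤ x := by
    have h1 : Real.sqrt (x * Real.log x) ≤ x / 10 := by
      apply Real.sqrt_le_iff.2 ⟨by positivity, ?_⟩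
      nlinarith
    have h2 : e * Real.sqrt (x * Real.log x) ≤ 1 * (x / 10) :=
      mul_le_mul he1 h1 (Real.sqrt_nonneg _) (by norm_num)
    linarith
  have hc := core (F := F) (γ := γ) hs hN hC he he1 h3 hY c1 c2 c3 c4
  rw [Real.dist_eq]
  have e1 : F x / Real.log x - γ = (F x - γ * Real.log x) / Real.log x := by
    field_simp
  rw [e1, abs_div, abs_of_pos hL0, div_lt_iff₀ hL0]
  refine lt_of_le_of_lt hc ?_
  rw [div_le_iff₀ hδ] at b5
  have e2 : e ^ 2 ≤ e := by nlinarith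
  have e3 : C * e ^ 2 * Real.log x ≤ C * e * Real.log x :=
    mul_le_mul_of_nonneg_right (mul_le_mul_of_nonneg_left e2 hC) hL0.le
  have e4 : (6 + 5 * C) * e * Real.log x ≤ δ / 4 * Real.log x :=
    mul_le_mul_of_nonneg_right he2 hL0.le
  nlinarith [mul_pos hδ hL0]

end Pool.Agent.K1H38.SL
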